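import Pool.Agent.Lib.MP_c2298c_an.CF.Stmt
import Pool.Agent.Lib.MP_c2298c_an.Final

/-!
Positive block diagonal operators that are weakly compact are compact.
-/

namespace Pool.Agent.Lib.MP_c2298c_an.CF

open MeasureTheory Filter Topology Set

variable {S : ℕ → Type} [∀ k, Fintype (S k)]

theorem compact_of_weak {M : Fam S} (h : ColBd M 1) (hp : ∀ k i j, 0 ≤ M k i j)
    (hw : IsWeaklyCompactOperator (op M)) : IsCompactOperator (op M) := by
  classical
  refine isCompactOperator_op h zero_le_one fun ε hε => ?_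
  by_contra hc
  push Not at hc
  choose k hk l hl using hc
  let y : ℕ → XX S := fun n => op M (unitV (k n) (l n))
  have hK := hw (Metric.closedBall 0 1) Metric.isBounded_closedBall
  have hmem : ∀ n, toWeakSpace ℝ (XX S) (y n) ∈
      closure (toWeakSpace ℝ (XX S) '' (op M '' Metric.closedBall 0 1)) := fun n =>
    subset_closure ⟨_, ⟨unitV (k n) (l n), by simp [norm_unitV], rfl⟩, rfl⟩
  obtain ⟨z, -, hz⟩ := hK.exists_mapClusterPt (f := atTop)
    (u := fun n => toWeakSpace ℝ (XX S) (y n)) (tendsto_principal.2 (Eventually.of_forall hmem))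
  have key : ∀ f : XX S →L[ℝ] ℝ,
      MapClusterPt (f ((toWeakSpace ℝ (XX S)).symm z)) atTop fun n => f (y n) := fun f =>
    hz.continuousAt_comp (f := fun x => f ((toWeakSpace ℝ (XX S)).symm x))
      (WeakBilin.eval_continuous (topDualPairing ℝ (XX S)).flip f).continuousAt
  have z0 : (toWeakSpace ℝ (XX S)).symm z = 0 := by
    refine xx_ext fun a i => ?_
    rw [co_zero, ← ev_apply]
    refine isClosed_singleton.mem_of_mapClusterPt (key (ev a i)) ?_
    filter_upwards [eventually_gt_atTop a] with n hn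
    have hne : a ≠ k n := by have := hk n; omega
    simp [y, co_op h, co_unitV_ne hne]
  have hm : ∀ n, ε ≤ (L1.integralCLM : XX S →L[ℝ] ℝ) (y n) := by
    intro n
    have y0 : 0 ≤ y n := op_nonneg h hp _ ((nonneg_iff _).2 fun a i => by
      by_cases ha : a = k n
      · subst ha
        rw [co_unitV_self]
        split_ifs <;> norm_num
      · rw [co_unitV_ne ha])
    have e : (L1.integralCLM : XX S →L[ℝ] ℝ) (y n) = ‖y n‖ := by
      rw [← L1.integral_eq, L1.integral_eq_integral, L1.norm_eq_integral_norm]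
      refine integral_congr_ae ?_
      filter_upwards [(Lp.coeFn_nonneg _).2 y0] with p hp
      exact (Real.norm_of_nonneg hp).symm
    rw [e]
    refine (hl n).le.trans (le_trans (le_of_eq ?_) (bn_le_norm (y n) (k n)))
    simp only [bn, y, co_op_unitV h]
  have := isClosed_Ici.mem_of_mapClusterPt (key L1.integralCLM) (Eventually.of_forall hm)
  rw [z0, map_zero] at this
  exact absurd this (not_le.2 hε)

theorem main : ∃ P : Par, CompactnessLost (XX fun k => St (P.N k)) := by
  obtain ⟨P, h1, h2, h3⟩ := exists_example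
  refine ⟨P, P.blocks.U, P.blocks.T, P.blocks.Bop, P.blocks.W, ⟨P.blocks.isSemigroup,
    P.blocks.isGenerator, P.blocks.isAdmissible, P.blocks.isDysonPhillips⟩, h1, fun m hm => ?_⟩
  obtain ⟨j, rfl⟩ : ∃ j, m = j + 2 := ⟨m - 2, by omega⟩
  exact ⟨fun hw => h2 j (compact_of_weak (P.blocks.Wm_colBd _ 1 zero_le_one)
    (P.blocks.Wm_nonneg _ 1 zero_le_one) hw),
    fun h => h3 j (tendsto_iff_norm_sub_tendsto_zero.2 h)⟩

end Pool.Agent.Lib.MP_c2298c_an.CF
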