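import Pool.Agent.Lib.MP_c2298c_an.Defs

/-!
Compactness of the first Dyson-Phillips term is not inherited by the later ones.
-/

namespace Pool.Agent.Lib.MP_c2298c_an

open Filter Topology Set

/-- On `X` there are `U, T, B, W` as in the setting such that `W 1 t` is compact for every
`t ≥ 0`, while for every `m ≥ 2` the operator `W m 1` is not weakly compact and `W m` is not
continuous in operator norm at `t = 1`. -/
def CompactnessLost (X : Type) [NormedAddCommGroup X] [NormedSpace ℝ X] [PartialOrder X] : Prop :=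
  ∃ (U : ℝ → (X →L[ℝ] X)) (T : X →ₗ.[ℝ] X) (B : T.domain →ₗ[ℝ] X)
    (W : ℕ → ℝ → (X →L[ℝ] X)), IsSetting U T B W ∧
    (∀ t : ℝ, 0 ≤ t → IsCompactOperator (W 1 t)) ∧
    ∀ m : ℕ, 2 ≤ m → ¬ IsWeaklyCompactOperator (W m 1) ∧
      ¬ Tendsto (fun s : ℝ => ‖W m s - W m 1‖) (𝓝[Ici 0] 1) (𝓝 0)

end Pool.Agent.Lib.MP_c2298c_an
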